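import Pool.Agent.Helper77.FV.Aeppli

/-!
A balanced and pluriclosed metric is Kähler (Alexandrov–Ivanov), on a Lie algebra.
-/

open Module

set_option linter.unusedSectionVars false

namespace Pool.Agent.Helper77.FV

variable {L : Type*} [LieRing L] [LieAlgebra ℝ L] [FiniteDimensional ℝ L]
variable {J : L →ₗ[ℝ] L} {g : LinearMap.BilinForm ℝ L}
variable {ι : Type*} [Fintype ι] [DecidableEq ι] {u : Basis ι ℝ L}

theorem IsON.sum_smul (hu : IsON g u) (x : L) : ∑ i, g (u i) x • u i = x := by
  conv_rhs => rw [← u.sum_repr x]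
  refine Finset.sum_congr rfl fun i _ => ?_
  rw [← hu.coord]
  rfl

theorem sum_J (h : SymInv J g) (hJ : ∀ x, J (J x) = -x) (hu : IsON g u)
    (B : L →ₗ[ℝ] L →ₗ[ℝ] ℝ) : ∑ i, B (J (u i)) (u i) = -∑ i, B (u i) (J (u i)) := by
  have h1 : ∀ i, B (J (u i)) (u i) = ∑ j, g (u j) (J (u i)) * B (u j) (u i) := by
    intro i
    conv_lhs => rw [← hu.sum_smul (J (u i))]
    rw [map_sum, LinearMap.sum_apply]
    refine Finset.sum_congr rfl fun j _ => ?_
    rw [map_smul, LinearMap.smul_apply, smul_eq_mul]
  simp only [h1]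
  rw [Finset.sum_comm, ← Finset.sum_neg_distrib]
  refine Finset.sum_congr rfl fun j _ => ?_
  conv_rhs => rw [← hu.sum_smul (J (u j))]
  rw [map_sum, ← Finset.sum_neg_distrib]
  refine Finset.sum_congr rfl fun i _ => ?_
  rw [map_smul, smul_eq_mul, ← neg_mul]
  congr 1
  have := h.skew hJ (u j) (u i)
  rw [h.1 (J (u j))] at this
  linarith

/-- linearity of the torsion in the last slot -/
noncomputable def cLast (J : L →ₗ[ℝ] L) (g : LinearMap.BilinForm ℝ L) (x y : L) : L →ₗ[ℝ] ℝ where
  toFun v := cForm J g x y v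
  map_add' := fun v w => by
    unfold cForm; simp only [lie_add, map_add, LinearMap.add_apply, add_lie]; ring
  map_smul' := fun r v => by
    unfold cForm
    simp only [lie_smul, map_smul, LinearMap.smul_apply, smul_lie, smul_eq_mul,
      RingHom.id_apply]
    ring

theorem cForm_eq_zero_of_basis (hc : ∀ i j k, cForm J g (u i) (u j) (u k) = 0) (x y z : L) :
    cForm J g x y z = 0 := by
  have h1 : ∀ i j z, cForm J g (u i) (u j) z = 0 := by
    intro i j z
    have : cLast J g (u i) (u j) = 0 := u.ext fun k => hc i j k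
    exact DFunLike.congr_fun this z
  have h2 : ∀ i y z, cForm J g (u i) y z = 0 := by
    intro i y z
    have : cLast J g z (u i) = 0 := u.ext fun j => by
      change cForm J g z (u i) (u j) = 0
      rw [cForm_cyc, h1]
    have h3 := DFunLike.congr_fun this y
    change cForm J g z (u i) y = 0 at h3
    rwa [cForm_cyc] at h3
  have : cLast J g y z = 0 := u.ext fun i => by
    change cForm J g y z (u i) = 0
    rw [cForm_cyc, cForm_cyc, h2]
  have h3 := DFunLike.congr_fun this x
  change cForm J g y z x = 0 at h3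
  rwa [cForm_cyc, cForm_cyc] at h3

theorem cForm_eq_zero_of_sum (h : SymInv J g) (hJ : ∀ x, J (J x) = -x) (hu : IsON g u)
    (hd : ∀ x y z w, dcForm J g x y z w = 0) (hb : ∑ i, ⁅u i, J (u i)⁆ = 0) (x y z : L) :
    cForm J g x y z = 0 := by
  set T := ∑ i, ∑ j, cForm J g ⁅u i, u j⁆ (J (u i)) (J (u j)) with hT
  -- the contraction in the second index
  have hA : ∀ i, ∑ j, cForm J g ⁅u i, J (u j)⁆ (J (u i)) (u j) =
      -∑ j, cForm J g ⁅u i, u j⁆ (J (u i)) (J (u j)) := by
    intro i
    exact sum_J h hJ hu (LinearMap.mk₂ ℝ (fun a b => cForm J g ⁅u i, a⁆ (J (u i)) b)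
      (fun a a' b => by
        unfold cForm; simp only [lie_add, map_add, LinearMap.add_apply, add_lie]; ring)
      (fun r a b => by
        unfold cForm
        simp only [lie_smul, map_smul, LinearMap.smul_apply, smul_lie, smul_eq_mul]; ring)
      (fun a b b' => by
        unfold cForm; simp only [lie_add, map_add, LinearMap.add_apply, add_lie]; ring)
      (fun r a b => by
        unfold cForm
        simp only [lie_smul, map_smul, LinearMap.smul_apply, smul_lie, smul_eq_mul]; ring))
  have hB : ∀ j, ∑ i, cForm J g ⁅J (u i), u j⁆ (u i) (J (u j)) =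
      -∑ i, cForm J g ⁅u i, u j⁆ (J (u i)) (J (u j)) := by
    intro j
    exact sum_J h hJ hu (LinearMap.mk₂ ℝ (fun a b => cForm J g ⁅a, u j⁆ b (J (u j)))
      (fun a a' b => by
        unfold cForm; simp only [lie_add, map_add, LinearMap.add_apply, add_lie]; ring)
      (fun r a b => by
        unfold cForm
        simp only [lie_smul, map_smul, LinearMap.smul_apply, smul_lie, smul_eq_mul]; ring)
      (fun a b b' => by
        unfold cForm; simp only [lie_add, map_add, LinearMap.add_apply, add_lie]; ring)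
      (fun r a b => by
        unfold cForm
        simp only [lie_smul, map_smul, LinearMap.smul_apply, smul_lie, smul_eq_mul]; ring))
  have hC : ∀ j, ∑ i, cForm J g ⁅J (u i), J (u j)⁆ (u i) (u j) =
      -∑ i, cForm J g ⁅u i, J (u j)⁆ (J (u i)) (u j) := by
    intro j
    exact sum_J h hJ hu (LinearMap.mk₂ ℝ (fun a b => cForm J g ⁅a, J (u j)⁆ b (u j))
      (fun a a' b => by
        unfold cForm; simp only [lie_add, map_add, LinearMap.add_apply, add_lie]; ring)
      (fun r a b => by
        unfold cForm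
        simp only [lie_smul, map_smul, LinearMap.smul_apply, smul_lie, smul_eq_mul]; ring)
      (fun a b b' => by
        unfold cForm; simp only [lie_add, map_add, LinearMap.add_apply, add_lie]; ring)
      (fun r a b => by
        unfold cForm
        simp only [lie_smul, map_smul, LinearMap.smul_apply, smul_lie, smul_eq_mul]; ring))
  have sA : ∑ i, ∑ j, cForm J g ⁅u i, J (u j)⁆ (J (u i)) (u j) = -T := by
    simp only [hA]; rw [Finset.sum_neg_distrib]
  have sB : ∑ i, ∑ j, cForm J g ⁅J (u i), u j⁆ (u i) (J (u j)) = -T := by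
    rw [Finset.sum_comm]; simp only [hB]
    rw [Finset.sum_neg_distrib, hT, Finset.sum_comm]
  have sC : ∑ i, ∑ j, cForm J g ⁅J (u i), J (u j)⁆ (u i) (u j) = T := by
    rw [Finset.sum_comm]; simp only [hC]
    rw [Finset.sum_neg_distrib, Finset.sum_comm, sA, neg_neg]
  have hfirst : ∀ a b : L, ∑ i, cForm J g ⁅u i, J (u i)⁆ a b = 0 := by
    intro a b
    let F : L →ₗ[ℝ] ℝ :=
      { toFun := fun v => cForm J g v a b
        map_add' := fun v w => by
          unfold cForm; simp only [lie_add, map_add, LinearMap.add_apply, add_lie]; ring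
        map_smul' := fun r v => by
          unfold cForm
          simp only [lie_smul, map_smul, LinearMap.smul_apply, smul_lie, smul_eq_mul,
            RingHom.id_apply]
          ring }
    have h1 : ∑ i, F ⁅u i, J (u i)⁆ = 0 := by
      rw [← map_sum, hb, map_zero]
    exact h1
  have s1 : ∑ i, ∑ j, cForm J g ⁅u i, J (u i)⁆ (u j) (J (u j)) = 0 := by
    rw [Finset.sum_comm]
    exact Finset.sum_eq_zero fun j _ => hfirst _ _
  have s6 : ∑ i, ∑ j, cForm J g ⁅u j, J (u j)⁆ (u i) (J (u i)) = 0 :=
    Finset.sum_eq_zero fun i _ => hfirst _ _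
  have hsum : ∑ i, ∑ j, dcForm J g (u i) (J (u i)) (u j) (J (u j)) = 4 * T := by
    unfold dcForm
    simp only [Finset.sum_add_distrib, Finset.sum_sub_distrib, Finset.sum_neg_distrib]
    rw [s1, s6, sA, sB, sC, ← hT]
    ring
  have hT0 : T = 0 := by
    have : (4 : ℝ) * T = 0 := by
      rw [← hsum]
      exact Finset.sum_eq_zero fun i _ => Finset.sum_eq_zero fun j _ => hd _ _ _ _
    linarith
  -- the norm of the torsion
  apply cForm_eq_zero_of_basis (u := u)
  set P : ι → ι → ι → ℝ := fun i j k =>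
    cForm J g (u i) (u j) (u k) * g ⁅J (u i), J (u j)⁆ (u k) with hP
  have hrot : ∀ F : ι → ι → ι → ℝ, ∑ i, ∑ j, ∑ k, F i j k = ∑ i, ∑ j, ∑ k, F j k i := by
    intro F
    symm
    rw [Finset.sum_comm]
    refine Finset.sum_congr rfl fun j _ => ?_
    rw [Finset.sum_comm]
  have hPs : ∑ i, ∑ j, ∑ k, P i j k = 0 := by
    have h1 : ∀ i j, ∑ k, P i j k = cForm J g ⁅J (u i), J (u j)⁆ (u i) (u j) := by
      intro i j
      rw [cForm_cyc]
      conv_rhs => rw [← hu.sum_smul ⁅J (u i), J (u j)⁆]
      change _ = cLast J g (u i) (u j) _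
      rw [map_sum]
      refine Finset.sum_congr rfl fun k _ => ?_
      rw [map_smul, smul_eq_mul, h.1 (u k), mul_comm]
      rfl
    simp only [h1]
    rw [sC, hT0]
  have hsq : ∑ i, ∑ j, ∑ k, cForm J g (u i) (u j) (u k) ^ 2 = 0 := by
    have h1 : ∀ i j k, cForm J g (u i) (u j) (u k) ^ 2 = P i j k + P j k i + P k i j := by
      intro i j k
      simp only [hP]
      rw [cForm_cyc (u k) (u i) (u j), ← cForm_cyc (u i) (u j) (u k), sq]
      conv_lhs => rhs; unfold cForm
      ring
    simp only [h1, Finset.sum_add_distrib]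
    rw [← hrot P, ← hrot (fun i j k => P j k i), ← hrot P, hPs]
    ring
  intro i j k
  have h1 := (Finset.sum_eq_zero_iff_of_nonneg (fun i _ => Finset.sum_nonneg fun j _ =>
    Finset.sum_nonneg fun k _ => sq_nonneg _)).mp hsq i (Finset.mem_univ i)
  have h2 := (Finset.sum_eq_zero_iff_of_nonneg (fun j _ =>
    Finset.sum_nonneg fun k _ => sq_nonneg _)).mp h1 j (Finset.mem_univ j)
  have h3 := (Finset.sum_eq_zero_iff_of_nonneg (fun k _ => sq_nonneg _)).mp h2 k
    (Finset.mem_univ k)
  exact pow_eq_zero_iff (two_ne_zero) |>.mp h3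

end Pool.Agent.Helper77.FV
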