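import Pool.Agent.Helper77.FV.Bal

/-!
The `(1,1)`-part of an exact form is pluriclosed.
-/

open Module

set_option linter.unusedSectionVars false

namespace Pool.Agent.Helper77.FV

variable {L : Type*} [LieRing L] [LieAlgebra ℝ L] [FiniteDimensional ℝ L]
variable {J : L →ₗ[ℝ] L}

/-- the bracket as a bilinear map -/
noncomputable def lieL : L →ₗ[ℝ] L →ₗ[ℝ] L := (LieAlgebra.ad ℝ L : L →ₗ[ℝ] Module.End ℝ L)

@[simp] theorem lieL_apply (x y : L) : lieL x y = ⁅x, y⁆ := rfl

/-- the symmetric form attached to a one-form -/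
noncomputable def sForm (J : L →ₗ[ℝ] L) : Dual ℝ L →ₗ[ℝ] LinearMap.BilinForm ℝ L where
  toFun α := (1 / 2 : ℝ) • ((lieL.compl₂ J).compr₂ α + ((lieL.compl₂ J).compr₂ α).flip)
  map_add' α β := by
    ext x y
    simp only [LinearMap.smul_apply, LinearMap.add_apply, LinearMap.compr₂_apply,
      LinearMap.compl₂_apply, LinearMap.flip_apply, smul_eq_mul]
    ring
  map_smul' r α := by
    ext x y
    simp only [LinearMap.smul_apply, LinearMap.add_apply, LinearMap.compr₂_apply,
      LinearMap.compl₂_apply, LinearMap.flip_apply, smul_eq_mul, RingHom.id_apply]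
    ring

theorem sForm_apply (α : Dual ℝ L) (x y : L) :
    sForm J α x y = (1 / 2) * (α ⁅x, J y⁆ + α ⁅y, J x⁆) := rfl

theorem sForm_symInv (hJ : ∀ x, J (J x) = -x) (α : Dual ℝ L) : SymInv J (sForm J α) := by
  constructor
  · intro x y
    rw [sForm_apply, sForm_apply, add_comm]
  · intro x y
    rw [sForm_apply, sForm_apply, hJ, hJ, lie_neg, lie_neg, ← lie_skew y (J x),
      ← lie_skew x (J y)]
    simp only [map_neg]
    ring

/-- auxiliary two-form -/
noncomputable def gForm (J : L →ₗ[ℝ] L) (α : Dual ℝ L) : LinearMap.BilinForm ℝ L :=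
  (1 / 2 : ℝ) • ((lieL.compl₂ J).compr₂ α + (lieL ∘ₗ J).compr₂ α)

theorem gForm_apply (α : Dual ℝ L) (x y : L) :
    gForm J α x y = (1 / 2) * (α ⁅x, J y⁆ + α ⁅J x, y⁆) := rfl

theorem gForm_skew (α : Dual ℝ L) (x y : L) : gForm J α x y = -gForm J α y x := by
  rw [gForm_apply, gForm_apply, ← lie_skew (J y) x, ← lie_skew y (J x)]
  simp only [map_neg]
  ring

theorem cForm_sForm (hJ : IsComplexStructure J) (α : Dual ℝ L) (x y z : L) :
    cForm J (sForm J α) x y z =
      gForm J α z ⁅x, y⁆ + gForm J α x ⁅y, z⁆ + gForm J α y ⁅z, x⁆ := by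
  have hN : ∀ x y, J ⁅J x, J y⁆ = J ⁅x, y⁆ - ⁅J x, y⁆ - ⁅x, J y⁆ := by
    intro x y
    rw [hJ.2, map_add, hJ.1]
    abel
  have j1 := congrArg α (lie_jacobi (J x) (J y) (J z))
  have j2 := congrArg α (lie_jacobi z (J x) y)
  have j3 := congrArg α (lie_jacobi z x (J y))
  have j4 := congrArg α (lie_jacobi (J z) x y)
  simp only [map_add, map_zero] at j1 j2 j3 j4
  unfold cForm
  simp only [sForm_apply, gForm_apply, hN, lie_sub, map_sub]
  rw [← lie_skew ⁅J x, J y⁆ (J z), ← lie_skew ⁅J y, J z⁆ (J x), ← lie_skew ⁅J z, J x⁆ (J y)]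
  simp only [map_neg]
  linarith

theorem dcForm_sForm (hJ : IsComplexStructure J) (α : Dual ℝ L) (x y z w : L) :
    dcForm J (sForm J α) x y z w = 0 := by
  unfold dcForm
  simp only [cForm_sForm hJ]
  set γ := gForm J α with hγ
  have hs : ∀ u v, γ u v = -γ v u := gForm_skew α
  have e : ∀ v a b c : L, γ v ⁅⁅a, b⁆, c⁆ = -γ v ⁅c, ⁅a, b⁆⁆ := by
    intro v a b c
    rw [← lie_skew, map_neg]
  have f : ∀ v a b c : L, γ v ⁅c, ⁅a, b⁆⁆ = -γ v ⁅c, ⁅b, a⁆⁆ := by
    intro v a b c
    rw [← lie_skew a b, lie_neg, map_neg]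
  have jac : ∀ v a b c : L, γ v ⁅a, ⁅b, c⁆⁆ + γ v ⁅b, ⁅c, a⁆⁆ + γ v ⁅c, ⁅a, b⁆⁆ = 0 := by
    intro v a b c
    have := congrArg (γ v) (lie_jacobi a b c)
    simpa only [map_add, map_zero] using this
  have s1 := hs ⁅x, y⁆ ⁅z, w⁆
  have s2 := hs ⁅x, z⁆ ⁅y, w⁆
  have s3 := hs ⁅x, w⁆ ⁅y, z⁆
  simp only [e]
  linarith [jac w x y z, jac z x y w, jac y x z w, jac x y z w, f w x z y, f z x w y, f z y w x,
    f y x z w, f y x w z, f y z w x, f x y z w, f x y w z, f x z w y, f z x y w]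

/-- the torsion is linear in the metric -/
theorem cForm_add (g h : LinearMap.BilinForm ℝ L) (x y z : L) :
    cForm J (g + h) x y z = cForm J g x y z + cForm J h x y z := by
  unfold cForm
  simp only [LinearMap.add_apply]
  ring

theorem dcForm_add (g h : LinearMap.BilinForm ℝ L) (x y z w : L) :
    dcForm J (g + h) x y z w = dcForm J g x y z w + dcForm J h x y z w := by
  unfold dcForm
  simp only [cForm_add]
  ring

theorem sum_coord_comp {M : Type*} [AddCommGroup M] [Module ℝ M] {ι : Type*} [Fintype ι]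
    (b : Basis ι ℝ L) (J : L →ₗ[ℝ] L) (B : Dual ℝ L →ₗ[ℝ] L →ₗ[ℝ] M) :
    ∑ i, B (J.dualMap (b.coord i)) (b i) = ∑ k, B (b.coord k) (J (b k)) := by
  have h1 : ∀ i, B (J.dualMap (b.coord i)) (b i) =
      ∑ k, (b.coord i) (J (b k)) • B (b.coord k) (b i) := by
    intro i
    conv_lhs => rw [← sum_apply_smul_coord b (J.dualMap (b.coord i))]
    rw [map_sum, LinearMap.sum_apply]
    refine Finset.sum_congr rfl fun k _ => ?_
    rw [map_smul, LinearMap.smul_apply]
    rfl
  simp only [h1]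
  rw [Finset.sum_comm]
  refine Finset.sum_congr rfl fun k _ => ?_
  exact sum_coord_smul b (B (b.coord k)) (J (b k))

theorem ceD_oneForm (α : Dual ℝ L) : ceD (oneForm α) = (-(1 / 2 : ℝ)) • ∑ i, ∑ j,
    α ⁅finBasis ℝ L i, finBasis ℝ L j⁆ •
      (oneForm ((finBasis ℝ L).coord i) * oneForm ((finBasis ℝ L).coord j)) := by
  rw [ceD_eq]
  unfold ceDb
  congr 1
  refine Finset.sum_congr rfl fun i _ => Finset.sum_congr rfl fun j _ => ?_
  rw [intProd_oneForm, ← Algebra.commutes, ← Algebra.smul_def]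

theorem pullJ_ceD_oneForm (α : Dual ℝ L) : pullJ J (ceD (oneForm α)) =
    (-(1 / 2 : ℝ)) • ∑ i, ∑ j, α ⁅J (finBasis ℝ L i), J (finBasis ℝ L j)⁆ •
      (oneForm ((finBasis ℝ L).coord i) * oneForm ((finBasis ℝ L).coord j)) := by
  set b := finBasis ℝ L
  rw [ceD_oneForm, map_smul, map_sum]
  congr 1
  have h1 : ∀ i, pullJ J (∑ j, α ⁅b i, b j⁆ • (oneForm (b.coord i) * oneForm (b.coord j))) =
      ∑ j, α ⁅b i, J (b j)⁆ • (oneForm (J.dualMap (b.coord i)) * oneForm (b.coord j)) := by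
    intro i
    rw [map_sum]
    have h2 := sum_coord_comp b J (M := Forms L)
      (LinearMap.mk₂ ℝ (fun (β : Dual ℝ L) (y : L) => α ⁅b i, y⁆ •
        (oneForm (J.dualMap (b.coord i)) * oneForm β))
        (fun β β' y => by rw [map_add, mul_add, smul_add])
        (fun r β y => by rw [map_smul, mul_smul_comm, smul_comm])
        (fun β y y' => by rw [lie_add, map_add, add_smul])
        (fun r β y => by rw [lie_smul, map_smul, smul_assoc]))
    simp only [LinearMap.mk₂_apply] at h2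
    rw [← h2]
    refine Finset.sum_congr rfl fun j _ => ?_
    rw [map_smul, map_mul, pullJ_oneForm, pullJ_oneForm]
  rw [Finset.sum_congr rfl fun i _ => h1 i]
  rw [Finset.sum_comm]
  conv_rhs => rw [Finset.sum_comm]
  refine Finset.sum_congr rfl fun j _ => ?_
  have h2 := sum_coord_comp b J (M := Forms L)
    (LinearMap.mk₂ ℝ (fun (β : Dual ℝ L) (x : L) => α ⁅x, J (b j)⁆ •
      (oneForm β * oneForm (b.coord j)))
      (fun β β' y => by rw [map_add, add_mul, smul_add])
      (fun r β y => by rw [map_smul, smul_mul_assoc, smul_comm])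
      (fun β y y' => by rw [add_lie, map_add, add_smul])
      (fun r β y => by rw [smul_lie, map_smul, smul_assoc]))
  simp only [LinearMap.mk₂_apply] at h2
  exact h2

/-- fundamental form of `sForm` -/
theorem fundForm_sForm (hJ : ∀ x, J (J x) = -x) (α : Dual ℝ L) :
    fundForm J (sForm J α) =
      (-(1 / 2 : ℝ)) • (ceD (oneForm α) + pullJ J (ceD (oneForm α))) := by
  rw [pullJ_ceD_oneForm, ceD_oneForm]
  unfold fundForm
  set b := finBasis ℝ L
  rw [← smul_add, ← Finset.sum_add_distrib, smul_smul]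
  have h1 : ∀ i, oneForm (b.coord i) * oneForm (sForm J α (J (b i))) =
      (1 / 2 : ℝ) • ∑ j, (α ⁅b i, b j⁆ + α ⁅J (b i), J (b j)⁆) •
        (oneForm (b.coord i) * oneForm (b.coord j)) := by
    intro i
    conv_lhs => rw [← sum_apply_smul_coord b (sForm J α (J (b i)))]
    rw [map_sum, Finset.mul_sum, Finset.smul_sum]
    refine Finset.sum_congr rfl fun j _ => ?_
    rw [map_smul, mul_smul_comm, smul_smul]
    congr 1
    rw [sForm_apply, hJ, lie_neg, ← lie_skew (b j) (b i), neg_neg, add_comm]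
  simp only [h1]
  rw [← Finset.smul_sum, smul_smul]
  norm_num
  refine Finset.sum_congr rfl fun i _ => ?_
  rw [← Finset.sum_add_distrib]
  refine Finset.sum_congr rfl fun j _ => ?_
  rw [add_smul]

theorem fundForm_add (g h : LinearMap.BilinForm ℝ L) :
    fundForm J (g + h) = fundForm J g + fundForm J h := by
  unfold fundForm
  rw [← smul_add, ← Finset.sum_add_distrib]
  congr 1
  refine Finset.sum_congr rfl fun i _ => ?_
  rw [LinearMap.add_apply, map_add, mul_add]

end Pool.Agent.Helper77.FV
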