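import Mathlib

/-!
# Left-invariant Hermitian structures on Lie algebras

A left-invariant `k`-form on a Lie group with Lie algebra `L` is given by its values on `k`-tuples
of elements of `L`, that is, by a function `(Fin k → L) → ℝ`.
-/

open Module

namespace Pool.Agent.Helper77.LieForms

variable {L : Type*} [LieRing L] [LieAlgebra ℝ L]

/-- The tuple obtained from `x` by deleting the `i`-th entry and then the `j`-th entry of the
remaining tuple. -/
def del {k : ℕ} (x : Fin (k + 2) → L) (i : Fin (k + 2)) (j : Fin (k + 1)) : Fin k → L :=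
  fun l => x (i.succAbove (j.succAbove l))

/-- The Chevalley–Eilenberg differential of a `k`-form, `k ≥ 1`:
`(d η)(x_0, …, x_k) = ∑_{i < j} (-1)^(i+j) η([x_i, x_j], x_0, …, x̂_i, …, x̂_j, …, x_k)`.  (The
second index is written `j = j' + 1` with `i ≤ j'`.) -/
noncomputable def ceD {k : ℕ} (η : (Fin (k + 1) → L) → ℝ) (x : Fin (k + 2) → L) : ℝ :=
  ∑ i : Fin (k + 2), ∑ j : Fin (k + 1), if i.val ≤ j.val then
    (-1) ^ (i.val + j.val + 1) * η (Fin.cons ⁅x i, x (i.succAbove j)⁆ (del x i j)) else 0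

/-- The wedge product of a `2`-form `β` and a `k`-form `η`:
`(β ∧ η)(x_0, …, x_(k+1)) = ∑_{i < j} (-1)^(i+j-1) β(x_i, x_j) η(x_0, …, x̂_i, …, x̂_j, …)`. -/
noncomputable def wedge {k : ℕ} (β : L → L → ℝ) (η : (Fin k → L) → ℝ) (x : Fin (k + 2) → L) : ℝ :=
  ∑ i : Fin (k + 2), ∑ j : Fin (k + 1), if i.val ≤ j.val then
    (-1) ^ (i.val + j.val) * (β (x i) (x (i.succAbove j)) * η (del x i j)) else 0

/-- The wedge powers `β ^ m` of a `2`-form. -/
noncomputable def wedgePow (β : L → L → ℝ) : (m : ℕ) → (Fin (2 * m) → L) → ℝ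
  | 0 => fun _ => 1
  | m + 1 => wedge (k := 2 * m) β (wedgePow β m)

/-- The fundamental `2`-form `ω(x, y) = g(J x, y)`. -/
def omega (J : L →ₗ[ℝ] L) (g : LinearMap.BilinForm ℝ L) (x y : L) : ℝ := g (J x) y

/-- The exterior derivative of a `2`-form. -/
noncomputable def dTwo (β : L → L → ℝ) : (Fin 3 → L) → ℝ := ceD (k := 1) fun x => β (x 0) (x 1)

/-- `J` is an integrable (left-invariant) complex structure. -/
def IsComplexStructure (J : L →ₗ[ℝ] L) : Prop :=
  (∀ x, J (J x) = -x) ∧ ∀ x y, ⁅J x, J y⁆ = ⁅x, y⁆ + J (⁅J x, y⁆ + ⁅x, J y⁆)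

/-- `g` is a (left-invariant) Hermitian metric: a `J`-invariant inner product. -/
def IsHermitianMetric (J : L →ₗ[ℝ] L) (g : LinearMap.BilinForm ℝ L) : Prop :=
  (∀ x y, g x y = g y x) ∧ (∀ x, x ≠ 0 → 0 < g x x) ∧ ∀ x y, g (J x) (J y) = g x y

/-- The metric `g` is Kähler: `dω = 0`. -/
def IsKahler (J : L →ₗ[ℝ] L) (g : LinearMap.BilinForm ℝ L) : Prop :=
  ∀ x, dTwo (omega J g) x = 0

/-- The metric `g` is pluriclosed (SKT): `d dᶜ ω = 0`, where `dᶜ ω = ± d ω(J ·, J ·, J ·)`. -/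
def IsPluriclosed (J : L →ₗ[ℝ] L) (g : LinearMap.BilinForm ℝ L) : Prop :=
  ∀ x, ceD (k := 2) (fun y => dTwo (omega J g) fun i => J (y i)) x = 0

/-- The metric `g` is balanced: `d (ω ^ (n - 1)) = 0`, where `2 n` is the dimension of `L`
(an empty condition if `n ≤ 1`). -/
def IsBalanced (J : L →ₗ[ℝ] L) (g : LinearMap.BilinForm ℝ L) : Prop :=
  ∀ m : ℕ, finrank ℝ L = 2 * (m + 2) →
    ∀ x, ceD (k := 2 * m + 1) (wedgePow (omega J g) (m + 1)) x = 0

/-- The Lie algebra is unimodular: every `ad x` has trace zero. -/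
def IsUnimodular (L : Type*) [LieRing L] [LieAlgebra ℝ L] : Prop :=
  ∀ x : L, LinearMap.trace ℝ L (LieAlgebra.ad ℝ L x) = 0

end Pool.Agent.Helper77.LieForms
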