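import Pool.Agent.Helper77.FV.Calc

/-!
Evaluation of the low-degree forms on vectors.
-/

open Module

namespace Pool.Agent.Helper77.FV

variable {L : Type*} [LieRing L] [LieAlgebra ℝ L] {ι : Type*} [Fintype ι] (b : Basis ι ℝ L)

@[simp] theorem lieDb_algebraMap (x : L) (r : ℝ) : lieDb b x (algebraMap ℝ (Forms L) r) = 0 := by
  unfold lieDb; simp

@[simp] theorem ceDb_algebraMap (r : ℝ) : ceDb b (algebraMap ℝ (Forms L) r) = 0 := by
  unfold ceDb; simp

theorem lieDb_zero (x : L) : lieDb b x (0 : Forms L) = 0 := by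
  have := lieDb_algebraMap b x 0
  rwa [map_zero] at this

theorem ceDb_zero : ceDb b (0 : Forms L) = 0 := by
  have := ceDb_algebraMap b 0
  rwa [map_zero] at this

theorem intProd_sub' (x : L) (η θ : Forms L) : intProd x (η - θ) = intProd x η - intProd x θ :=
  map_sub _ _ _

/-- exterior derivative of a one-form -/
theorem eval_ceDb_one {η : Forms L} {A : L → ℝ}
    (h : ∀ x, intProd x η = algebraMap ℝ (Forms L) (A x)) (x y : L) :
    intProd y (intProd x (ceDb b η)) = algebraMap ℝ (Forms L) (-A ⁅x, y⁆) := by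
  rw [intProd_ceDb, intProd_sub', intProd_lieDb, h, h, h, ceDb_algebraMap, lieDb_algebraMap,
    map_zero, sub_zero, zero_sub, map_neg]

/-- exterior derivative of a two-form -/
theorem eval_ceDb_two {η : Forms L} {A : L → L → ℝ}
    (h : ∀ x y, intProd y (intProd x η) = algebraMap ℝ (Forms L) (A x y)) (x y z : L) :
    intProd z (intProd y (intProd x (ceDb b η))) =
      algebraMap ℝ (Forms L) (-A ⁅x, y⁆ z - A y ⁅x, z⁆ + A x ⁅y, z⁆) := by
  rw [intProd_ceDb, intProd_sub', intProd_lieDb, intProd_ceDb, h, ceDb_algebraMap, sub_zero]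
  simp only [intProd_sub', intProd_lieDb, h, lieDb_algebraMap]
  simp only [map_sub, map_add, map_neg]
  abel

/-- exterior derivative of a three-form -/
theorem eval_ceDb_three {η : Forms L} {A : L → L → L → ℝ}
    (h : ∀ x y z, intProd z (intProd y (intProd x η)) = algebraMap ℝ (Forms L) (A x y z))
    (x y z w : L) :
    intProd w (intProd z (intProd y (intProd x (ceDb b η)))) =
      algebraMap ℝ (Forms L) (-A ⁅x, y⁆ z w - A y ⁅x, z⁆ w + A x ⁅y, z⁆ w
        - A y z ⁅x, w⁆ + A x z ⁅y, w⁆ - A x y ⁅z, w⁆) := by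
  rw [intProd_ceDb, intProd_sub', intProd_lieDb, intProd_ceDb]
  simp only [intProd_sub', intProd_lieDb, intProd_ceDb, h, ceDb_algebraMap, lieDb_algebraMap,
    map_zero]
  simp only [map_sub, map_add, map_neg]
  abel

theorem eq_of_intProd {r s : ℝ} (h : algebraMap ℝ (Forms L) r = algebraMap ℝ _ s) :
    r = s := (algebraMap ℝ (Forms L)).injective h

theorem intProd_pullJ (J : L →ₗ[ℝ] L) (x : L) (η : Forms L) :
    intProd x (pullJ J η) = pullJ J (intProd (J x) η) := by
  refine CliffordAlgebra.left_induction (Q := (0 : QuadraticForm ℝ (Dual ℝ L))) ?_ ?_ ?_ η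
  · intro r
    rw [intProd_algebraMap, map_zero, AlgHom.commutes, intProd_algebraMap]
  · intro a b ha hb
    rw [map_add, map_add, map_add, map_add, ha, hb]
  · intro a m ha
    have h1 : (CliffordAlgebra.ι (0 : QuadraticForm ℝ (Dual ℝ L))) m = oneForm m := rfl
    rw [h1, map_mul]
    have h2 : pullJ J (oneForm m) = oneForm (J.dualMap m) := ExteriorAlgebra.map_apply_ι _ _
    rw [h2, intProd_oneForm_mul, intProd_oneForm_mul, ha, map_sub, map_mul, h2, map_smul]
    rfl

theorem pullJ_oneForm (J : L →ₗ[ℝ] L) (α : Dual ℝ L) :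
    pullJ J (oneForm α) = oneForm (J.dualMap α) := ExteriorAlgebra.map_apply_ι _ _

/-- change of basis in a contraction -/
theorem sum_coord_bilin {M : Type*} [AddCommGroup M] [Module ℝ M] {κ : Type*} [Fintype κ]
    (u : Basis κ ℝ L) (B : Dual ℝ L →ₗ[ℝ] L →ₗ[ℝ] M) :
    ∑ i, B (b.coord i) (b i) = ∑ j, B (u.coord j) (u j) := by
  have h1 : ∀ i, B (b.coord i) (b i) = ∑ j, (b.coord i) (u j) • B (u.coord j) (b i) := by
    intro i
    conv_lhs => rw [← sum_apply_smul_coord u (b.coord i)]
    rw [map_sum, LinearMap.sum_apply]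
    refine Finset.sum_congr rfl fun j _ => ?_
    rw [map_smul, LinearMap.smul_apply]
  simp only [h1]
  rw [Finset.sum_comm]
  refine Finset.sum_congr rfl fun j _ => ?_
  exact sum_coord_smul b (B (u.coord j)) (u j)

end Pool.Agent.Helper77.FV
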