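import Pool.Agent.Helper77.FV.Opt

/-!
The Fino–Vezzoni conjecture for left-invariant structures.
-/

open Module

set_option linter.unusedSectionVars false

namespace Pool.Agent.Helper77.FV

variable {L : Type*} [LieRing L] [LieAlgebra ℝ L] [FiniteDimensional ℝ L]
variable {J : L →ₗ[ℝ] L}

theorem even_finrank (hJ : ∀ x, J (J x) = -x) : Even (finrank ℝ L) := by
  have h1 : J ∘ₗ J = (-1 : ℝ) • LinearMap.id := by
    ext x
    simp [hJ]
  have h2 := congrArg LinearMap.det h1
  rw [LinearMap.det_comp, LinearMap.det_smul, LinearMap.det_id, mul_one] at h2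
  rcases Nat.even_or_odd (finrank ℝ L) with h | h
  · exact h
  · exfalso
    rw [h.neg_one_pow] at h2
    nlinarith [mul_self_nonneg (LinearMap.det J)]

/-- Sanity check: `ceD` is the antiderivation with `d α (x, y) = -α [x, y]`. -/
theorem eval_ceD_oneForm (α : Dual ℝ L) (x y : L) :
    intProd y (intProd x (ceD (oneForm α))) = algebraMap ℝ (Forms L) (-α ⁅x, y⁆) := by
  rw [ceD_eq]
  exact eval_ceDb_one _ (A := α) (fun x => intProd_oneForm x α) x y

theorem ceD_oneForm_mul (α : Dual ℝ L) (η : Forms L) :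
    ceD (oneForm α * η) = ceD (oneForm α) * η - oneForm α * ceD η := by
  rw [ceD_eq, ceD_eq, ceD_eq]
  unfold ceDb
  rw [smul_mul_assoc, Finset.sum_mul, mul_smul_comm, Finset.mul_sum, ← smul_sub,
    ← Finset.sum_sub_distrib]
  congr 1
  refine Finset.sum_congr rfl fun i _ => ?_
  rw [Finset.sum_mul, Finset.mul_sum, ← Finset.sum_sub_distrib]
  refine Finset.sum_congr rfl fun j _ => ?_
  rw [intProd_oneForm_mul, intProd_oneForm, mul_sub, mul_assoc _ (algebraMap _ _ _) η,
    ← Algebra.smul_def, ← mul_assoc _ (oneForm α), ← mul_assoc (oneForm α)]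
  congr 2
  rw [mul_assoc, oneForm_mul_comm _ α, mul_neg, ← mul_assoc, oneForm_mul_comm _ α, neg_mul,
    neg_neg, mul_assoc]

/-- Sanity check: the fundamental form has `ω(x, y) = g(J x, y)`. -/
theorem eval_fundForm {g : LinearMap.BilinForm ℝ L} (hJ : IsComplexStructure J)
    (h : IsHermitianMetric J g) (x y : L) :
    intProd y (intProd x (fundForm J g)) = algebraMap ℝ (Forms L) (g (J x) y) :=
  intProd_intProd_fundForm h.symInv hJ.1 x y

/-- **Fino–Vezzoni for unimodular Lie algebras.** -/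
theorem exists_kahler (hL : IsUnimodular L) (hJ : IsComplexStructure J)
    {g₁ g₂ : LinearMap.BilinForm ℝ L} (h₁ : IsHermitianMetric J g₁)
    (h₂ : IsHermitianMetric J g₂) (hb : IsBalanced J g₁) (hp : IsPluriclosed J g₂) :
    ∃ g₃ : LinearMap.BilinForm ℝ L, IsHermitianMetric J g₃ ∧ IsKahler J g₃ ∧
      ∃ α : Dual ℝ L, fundForm J g₃ = fundForm J g₂ +
        (1 / 2 : ℝ) • (ceD (oneForm α) + pullJ J (ceD (oneForm α))) := by
  obtain ⟨u, hu⟩ := exists_isON h₁.1 h₁.2.1
  have hb' := sum_lie_eq_zero_of_isBalanced hL hJ.1 h₁.symInv hu (even_finrank hJ.1) hb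
  obtain ⟨α, hH, e, he, hsum⟩ := exists_critical hJ hb' h₂
  refine ⟨g₂ + sForm J α, hH, ?_, -α, ?_⟩
  · apply isKahler_of_cForm hH.symInv hJ.1
    intro x y z
    refine cForm_eq_zero_of_sum hH.symInv hJ.1 he ?_ hsum x y z
    intro x y z w
    rw [dcForm_add, dcForm_sForm hJ, add_zero]
    exact dcForm_eq_zero_of_isPluriclosed h₂.symInv hJ.1 hp x y z w
  · rw [fundForm_add, fundForm_sForm hJ.1, map_neg, map_neg, map_neg]
    module

end Pool.Agent.Helper77.FV
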