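import Mathlib

/-!
Maximising the determinant on an affine slice of the cone of positive matrices.
-/

open Matrix

set_option linter.unusedSectionVars false

namespace Pool.Agent.Helper77.FV

variable {n : Type*} [Fintype n] [DecidableEq n]

theorem isClosed_posSemidef : IsClosed {M : Matrix n n ℝ | M.PosSemidef} := by
  have : {M : Matrix n n ℝ | M.PosSemidef} =
      {M : Matrix n n ℝ | Mᴴ = M} ∩ ⋂ x : n → ℝ, {M : Matrix n n ℝ | 0 ≤ star x ⬝ᵥ (M *ᵥ x)} := by
    ext M
    simp only [Set.mem_ofPred_eq, Set.mem_inter_iff, Set.mem_iInter]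
    exact posSemidef_iff_dotProduct_mulVec
  rw [this]
  refine IsClosed.inter (isClosed_eq (by fun_prop) continuous_id) (isClosed_iInter fun x => ?_)
  refine isClosed_le continuous_const ?_
  fun_prop

theorem abs_le_trace {M : Matrix n n ℝ} (hM : M.PosSemidef) (i j : n) : |M i j| ≤ M.trace := by
  have hd : ∀ k, 0 ≤ M k k := fun k => hM.diag_nonneg
  have htr : ∀ k, M k k ≤ M.trace := fun k =>
    Finset.single_le_sum (f := fun k => M k k) (fun l _ => hd l) (Finset.mem_univ k)
  have hsym : M j i = M i j := by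
    have := congrFun (congrFun hM.isHermitian i) j
    simpa using this
  have hp := hM.dotProduct_mulVec_nonneg (Pi.single i 1 + Pi.single j 1)
  have hm := hM.dotProduct_mulVec_nonneg (Pi.single i 1 - Pi.single j 1)
  simp only [star_trivial, mulVec_add, mulVec_sub, add_dotProduct, sub_dotProduct, dotProduct_add,
    dotProduct_sub, mulVec_single_one, single_one_dotProduct] at hp hm
  simp only [col_apply, hsym] at hp hm
  rw [abs_le]
  constructor <;> linarith [htr i, htr j]

theorem exists_max_det {G : Matrix n n ℝ} (hG : G.PosDef) (W : Submodule ℝ (Matrix n n ℝ))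
    (hW : ∀ A ∈ W, A.trace = 0) :
    ∃ A ∈ W, (G + A).PosDef ∧ ∀ B ∈ W, (G + B).PosSemidef → (G + B).det ≤ (G + A).det := by
  set K : Set (Matrix n n ℝ) := {M | M.PosSemidef ∧ M - G ∈ W} with hK
  have hcl : IsClosed K := by
    refine isClosed_posSemidef.inter ?_
    have h1 : IsClosed (W : Set (Matrix n n ℝ)) := W.closed_of_finiteDimensional
    exact h1.preimage (continuous_id.sub continuous_const)
  have hcomp : IsCompact K := by
    have h1 : IsCompact (Set.pi Set.univ (fun _ : n => Set.pi Set.univ
        (fun _ : n => Set.Icc (-G.trace) G.trace))) :=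
      isCompact_univ_pi fun _ => isCompact_univ_pi fun _ => isCompact_Icc
    refine h1.of_isClosed_subset hcl ?_
    intro M' hM'
    obtain ⟨M, rfl⟩ : ∃ M : Matrix n n ℝ, M = M' := ⟨M', rfl⟩
    obtain ⟨hM, hMW⟩ : M.PosSemidef ∧ M - G ∈ W := hM'
    have htr : Matrix.trace M = G.trace := by
      have h2 : Matrix.trace (M - G) = 0 := hW _ hMW
      have h3 : Matrix.trace (M - G) = Matrix.trace M - Matrix.trace G := Matrix.trace_sub M G
      linarith
    intro i _ j _
    rw [Set.mem_Icc, ← abs_le, ← htr]
    exact abs_le_trace hM i j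
  have hne : G ∈ K := ⟨hG.posSemidef, by rw [sub_self]; exact W.zero_mem⟩
  obtain ⟨M, hMK, hmax⟩ := hcomp.exists_isMaxOn ⟨G, hne⟩
    (continuous_id.matrix_det.continuousOn (s := K))
  refine ⟨M - G, hMK.2, ?_, ?_⟩
  · rw [add_sub_cancel]
    rw [hMK.1.posDef_iff_det_ne_zero]
    have h1 : G.det ≤ M.det := hmax hne
    exact (hG.det_pos.trans_le h1).ne'
  · intro B hB hBp
    rw [add_sub_cancel]
    exact hmax (show G + B ∈ K from ⟨hBp, by rw [add_sub_cancel_left]; exact hB⟩)

/-- first order condition -/
theorem trace_eq_zero_of_max {S : Matrix n n ℝ} {ε : ℝ} (hε : 0 < ε)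
    (h : ∀ t : ℝ, |t| < ε → (1 + t • S).det ≤ 1) : S.trace = 0 := by
  set p : Polynomial ℝ := (det (1 + (Polynomial.X : Polynomial ℝ) • S.map Polynomial.C)) with hp
  have hev : ∀ t, (1 + t • S).det = p.eval t := by
    intro t
    rw [hp]
    have := Matrix.det_one_add_smul t S
    rw [this]
    have h2 := congrArg (Polynomial.eval t) (Matrix.det_one_add_X_smul S)
    rw [h2]
    simp
  have hd : HasDerivAt (fun t => p.eval t) S.trace 0 := by
    have h1 := p.hasDerivAt 0
    rwa [hp, Matrix.derivative_det_one_add_X_smul] at h1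
  have hloc : IsLocalMax (fun t => p.eval t) 0 := by
    filter_upwards [Metric.ball_mem_nhds (0 : ℝ) hε] with t ht
    rw [← hev, ← hev, zero_smul, add_zero, det_one]
    apply h
    simpa using ht
  exact hloc.hasDerivAt_eq_zero hd

end Pool.Agent.Helper77.FV
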