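import Pool.Agent.Helper77.FV.AI
import Pool.Agent.Helper77.FV.Mat

/-!
The optimisation argument.
-/

open Module Matrix

set_option linter.unusedSectionVars false

namespace Pool.Agent.Helper77.FV

variable {L : Type*} [LieRing L] [LieAlgebra ℝ L] [FiniteDimensional ℝ L]
variable {J : L →ₗ[ℝ] L} {g : LinearMap.BilinForm ℝ L}

theorem exists_isON (hs : ∀ x y, g x y = g y x) (hp : ∀ x, x ≠ 0 → 0 < g x x) :
    ∃ u : Basis (Fin (finrank ℝ L)) ℝ L, IsON g u := by
  let core : InnerProductSpace.Core ℝ L :=
    { inner := fun x y => g x y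
      conj_inner_symm := fun x y => by
        change star (g y x) = g x y
        rw [hs x y]; rfl
      re_inner_nonneg := fun x => by
        change 0 ≤ g x x
        by_cases hx : x = 0
        · rw [hx]; simp
        · exact (hp x hx).le
      add_left := fun x y z => by
        change g (x + y) z = g x z + g y z
        rw [map_add, LinearMap.add_apply]
      smul_left := fun x y r => by
        change g (r • x) y = r * g x y
        rw [map_smul, LinearMap.smul_apply, smul_eq_mul]
      definite := fun x h0 => by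
        by_contra hx
        exact (hp x hx).ne' h0 }
  let _ : NormedAddCommGroup L := core.toNormedAddCommGroup
  let _ : InnerProductSpace ℝ L := InnerProductSpace.ofCore core.toCore
  let e := stdOrthonormalBasis ℝ L
  refine ⟨e.toBasis, fun i j => ?_⟩
  have h1 : inner ℝ (e i) (e j) = if i = j then (1 : ℝ) else 0 :=
    orthonormal_iff_ite.mp e.orthonormal i j
  have h2 : inner ℝ (e i) (e j) = g (e i) (e j) := rfl
  rw [← h1, h2]
  simp

variable {ι : Type*} [Fintype ι] [DecidableEq ι]

theorem quad_eq (b : Basis ι ℝ L) (g : LinearMap.BilinForm ℝ L) (x y : ι → ℝ) :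
    x ⬝ᵥ (LinearMap.BilinForm.toMatrix b g *ᵥ y) = g (b.equivFun.symm x) (b.equivFun.symm y) :=
  LinearMap.BilinForm.dotProduct_toMatrix_mulVec b g x y

theorem posSemidef_iff_form (b : Basis ι ℝ L) (g : LinearMap.BilinForm ℝ L)
    (hs : ∀ x y, g x y = g y x) :
    (LinearMap.BilinForm.toMatrix b g).PosSemidef ↔ ∀ x, 0 ≤ g x x := by
  rw [posSemidef_iff_dotProduct_mulVec]
  constructor
  · rintro ⟨_, h⟩ x
    have := h (b.equivFun x)
    rw [star_trivial, quad_eq] at this
    simpa using this
  · intro h
    refine ⟨?_, fun x => ?_⟩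
    · ext i j
      simp only [conjTranspose_apply, star_trivial, LinearMap.BilinForm.toMatrix_apply]
      exact hs _ _
    · rw [star_trivial, quad_eq]
      exact h _

theorem posDef_iff_form (b : Basis ι ℝ L) (g : LinearMap.BilinForm ℝ L)
    (hs : ∀ x y, g x y = g y x) :
    (LinearMap.BilinForm.toMatrix b g).PosDef ↔ ∀ x, x ≠ 0 → 0 < g x x := by
  rw [posDef_iff_dotProduct_mulVec]
  constructor
  · rintro ⟨_, h⟩ x hx
    have := h (x := b.equivFun x) (by simpa using hx)
    rw [star_trivial, quad_eq] at this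
    simpa using this
  · intro h
    refine ⟨?_, fun x hx => ?_⟩
    · ext i j
      simp only [conjTranspose_apply, star_trivial, LinearMap.BilinForm.toMatrix_apply]
      exact hs _ _
    · rw [star_trivial, quad_eq]
      exact h _ ((b.equivFun.symm.map_ne_zero_iff).mpr hx)

/-- the perturbed form is nonnegative for small parameters -/
theorem exists_eps {e : Basis ι ℝ L} (he : IsON g e) (s : LinearMap.BilinForm ℝ L) :
    ∃ ε > 0, ∀ t : ℝ, |t| < ε → ∀ x, 0 ≤ (g + t • s) x x := by
  set C : ℝ := ∑ k, ∑ l, |s (e k) (e l)| with hC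
  have hC0 : 0 ≤ C := Finset.sum_nonneg fun k _ => Finset.sum_nonneg fun l _ => abs_nonneg _
  refine ⟨1 / (C + 1), by positivity, fun t ht x => ?_⟩
  set c := e.repr x with hc
  have hx : x = ∑ k, c k • e k := (e.sum_repr x).symm
  have hg : g x x = ∑ k, c k ^ 2 := by
    have h1 := he.sum_smul x
    have h2 : ∀ k, g (e k) x = c k := by
      intro k
      rw [← he.coord]; rfl
    calc g x x = g (∑ k, c k • e k) x := by rw [← hx]
      _ = ∑ k, c k * g (e k) x := by
          rw [map_sum, LinearMap.sum_apply]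
          refine Finset.sum_congr rfl fun k _ => ?_
          rw [map_smul, LinearMap.smul_apply, smul_eq_mul]
      _ = _ := by
          refine Finset.sum_congr rfl fun k _ => ?_
          rw [h2]; ring
  have hs : s x x = ∑ k, ∑ l, c k * c l * s (e k) (e l) := by
    have e1 : ∀ y, s y x = ∑ l, c l * s y (e l) := by
      intro y
      calc s y x = s y (∑ l, c l • e l) := by rw [← hx]
        _ = _ := by
          rw [map_sum]
          refine Finset.sum_congr rfl fun l _ => ?_
          rw [map_smul, smul_eq_mul]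
    calc s x x = s (∑ k, c k • e k) x := by rw [← hx]
      _ = ∑ k, c k * s (e k) x := by
          rw [map_sum, LinearMap.sum_apply]
          refine Finset.sum_congr rfl fun k _ => ?_
          rw [map_smul, LinearMap.smul_apply, smul_eq_mul]
      _ = _ := by
          refine Finset.sum_congr rfl fun k _ => ?_
          rw [e1, Finset.mul_sum]
          refine Finset.sum_congr rfl fun l _ => ?_
          ring
  set N : ℝ := ∑ k, c k ^ 2 with hN
  have hN0 : 0 ≤ N := Finset.sum_nonneg fun k _ => sq_nonneg _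
  have hck : ∀ k, c k ^ 2 ≤ N := fun k =>
    Finset.single_le_sum (f := fun k => c k ^ 2) (fun l _ => sq_nonneg _) (Finset.mem_univ k)
  have hbd : |s x x| ≤ C * N := by
    rw [hs, hC, Finset.sum_mul]
    refine (Finset.abs_sum_le_sum_abs _ _).trans (Finset.sum_le_sum fun k _ => ?_)
    rw [Finset.sum_mul]
    refine (Finset.abs_sum_le_sum_abs _ _).trans (Finset.sum_le_sum fun l _ => ?_)
    rw [abs_mul, mul_comm]
    refine mul_le_mul_of_nonneg_left ?_ (abs_nonneg _)
    rw [abs_le]
    constructor
    · nlinarith [sq_nonneg (c k + c l), hck k, hck l]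
    · nlinarith [sq_nonneg (c k - c l), hck k, hck l]
  rw [LinearMap.add_apply, LinearMap.add_apply, LinearMap.smul_apply, LinearMap.smul_apply,
    smul_eq_mul, hg]
  have h1 : |t * s x x| ≤ (1 / (C + 1)) * (C * N) := by
    rw [abs_mul]
    exact mul_le_mul ht.le hbd (abs_nonneg _) (by positivity)
  have h2 : (1 / (C + 1)) * (C * N) ≤ N := by
    rw [div_mul_eq_mul_div, one_mul, div_le_iff₀ (by positivity)]
    nlinarith
  have h3 := (abs_le.mp h1).1
  linarith

/-- A critical point of the determinant in the Aeppli class of `g₂`. -/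
theorem exists_critical {g₂ : LinearMap.BilinForm ℝ L} (hJ : IsComplexStructure J)
    {u : Basis ι ℝ L} (hb : ∑ i, ⁅u i, J (u i)⁆ = 0)
    (h₂ : IsHermitianMetric J g₂) :
    ∃ α : Dual ℝ L, IsHermitianMetric J (g₂ + sForm J α) ∧
      ∃ e : Basis (Fin (finrank ℝ L)) ℝ L, IsON (g₂ + sForm J α) e ∧
        ∑ k, ⁅e k, J (e k)⁆ = 0 := by
  -- the space of perturbations
  let A : Dual ℝ L →ₗ[ℝ] Matrix ι ι ℝ :=
    (LinearMap.BilinForm.toMatrix u).toLinearMap ∘ₗ sForm J
  have hA : ∀ α, A α = LinearMap.BilinForm.toMatrix u (sForm J α) := fun α => rfl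
  have hW : ∀ B ∈ LinearMap.range A, B.trace = 0 := by
    rintro _ ⟨α, rfl⟩
    have h1 : (A α).trace = ∑ i, α ⁅u i, J (u i)⁆ := by
      rw [hA, Matrix.trace]
      refine Finset.sum_congr rfl fun i _ => ?_
      rw [Matrix.diag_apply, LinearMap.BilinForm.toMatrix_apply, sForm_apply]
      ring
    rw [h1, ← map_sum, hb, map_zero]
  have hG : (LinearMap.BilinForm.toMatrix u g₂).PosDef := (posDef_iff_form u g₂ h₂.1).mpr h₂.2.1
  obtain ⟨_, ⟨α, rfl⟩, hpd, hmax⟩ := exists_max_det hG (LinearMap.range A) hW
  have hsym : ∀ β, SymInv J (g₂ + sForm J β) := by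
    intro β
    have h1 := sForm_symInv hJ.1 β
    constructor
    · intro x y
      rw [LinearMap.add_apply, LinearMap.add_apply, LinearMap.add_apply, LinearMap.add_apply,
        h₂.1 x y, h1.1 x y]
    · intro x y
      rw [LinearMap.add_apply, LinearMap.add_apply, LinearMap.add_apply, LinearMap.add_apply,
        h₂.2.2 x y, h1.2 x y]
  have hadd : ∀ β, LinearMap.BilinForm.toMatrix u g₂ + A β =
      LinearMap.BilinForm.toMatrix u (g₂ + sForm J β) := by
    intro β
    rw [hA, map_add]
  rw [hadd, posDef_iff_form u _ (hsym α).1] at hpd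
  have hH : IsHermitianMetric J (g₂ + sForm J α) := ⟨(hsym α).1, hpd, (hsym α).2⟩
  obtain ⟨e, he⟩ := exists_isON hH.1 hH.2.1
  refine ⟨α, hH, e, he, ?_⟩
  rw [← Module.forall_dual_apply_eq_zero_iff ℝ]
  intro β
  set g₃ := g₂ + sForm J α with hg₃
  set S := LinearMap.BilinForm.toMatrix e (sForm J β) with hS
  have hStr : S.trace = ∑ k, β ⁅e k, J (e k)⁆ := by
    rw [hS, Matrix.trace]
    refine Finset.sum_congr rfl fun i _ => ?_
    rw [Matrix.diag_apply, LinearMap.BilinForm.toMatrix_apply, sForm_apply]
    ring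
  rw [map_sum, ← hStr]
  obtain ⟨ε, hε, hpos⟩ := exists_eps he (sForm J β)
  refine trace_eq_zero_of_max hε fun t ht => ?_
  have hform : g₃ + t • sForm J β = g₂ + sForm J (α + t • β) := by
    rw [hg₃, map_add, map_smul, add_assoc]
  have h1 : (LinearMap.BilinForm.toMatrix u (g₃ + t • sForm J β)).PosSemidef := by
    rw [hform]
    refine (posSemidef_iff_form u _ (hsym _).1).mpr ?_
    rw [← hform]
    exact hpos t ht
  have h2 : (LinearMap.BilinForm.toMatrix u (g₃ + t • sForm J β)).det ≤
      (LinearMap.BilinForm.toMatrix u g₃).det := by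
    have := hmax (A (α + t • β)) ⟨_, rfl⟩ (by rw [hadd, ← hform]; exact h1)
    rw [hadd, hadd, ← hform] at this
    exact this
  -- change of basis
  have hcard : Fintype.card ι = finrank ℝ L := (Module.finrank_eq_card_basis u).symm
  let σ : ι ≃ Fin (finrank ℝ L) := Fintype.equivFinOfCardEq hcard
  set e' : Basis ι ℝ L := e.reindex σ.symm with he'
  have hdet : ∀ B : LinearMap.BilinForm ℝ L, (LinearMap.BilinForm.toMatrix e' B).det =
      (u.toMatrix e').det ^ 2 * (LinearMap.BilinForm.toMatrix u B).det := by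
    intro B
    rw [← LinearMap.BilinForm.toMatrix_mul_basis_toMatrix (b := u) e' B, det_mul, det_mul,
      det_transpose]
    ring
  have hre : ∀ B : LinearMap.BilinForm ℝ L, (LinearMap.BilinForm.toMatrix e' B).det =
      (LinearMap.BilinForm.toMatrix e B).det := by
    intro B
    have : LinearMap.BilinForm.toMatrix e' B =
        (LinearMap.BilinForm.toMatrix e B).submatrix σ σ := by
      ext i j
      simp [LinearMap.BilinForm.toMatrix_apply, he']
    rw [this, det_submatrix_equiv_self]
  have h3 : LinearMap.BilinForm.toMatrix e g₃ = 1 := by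
    ext i j
    rw [LinearMap.BilinForm.toMatrix_apply, he, Matrix.one_apply]
  have h4 : LinearMap.BilinForm.toMatrix e (g₃ + t • sForm J β) = 1 + t • S := by
    rw [map_add, h3, map_smul]
  have h5 := mul_le_mul_of_nonneg_left h2 (sq_nonneg (u.toMatrix e').det)
  rw [← hdet, ← hdet, hre, hre, h3, h4, det_one] at h5
  exact h5

end Pool.Agent.Helper77.FV
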